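import Pool.Agent.H24.Hex

/-! Planar elastic phase with voids: the supremum of `μ_* - c κ_*` over isotropic microstructures
is `μ`, for every `c > 0`. -/

open Complex Filter Topology MeasureTheory
open scoped ContDiff

namespace Pool.Agent.Results.MP_2f78f5_an.ShearTwoD

/-- A planar microstructure. The plane is `ℂ`, with coordinates `(re, im)`. It has two linearly
independent period vectors `b 0`, `b 1` and a measurable set `Ω` with these periods, occupied by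
the elastic phase. The complement of `Ω` is void. -/
structure Microstructure where
  b : Module.Basis (Fin 2) ℝ ℂ
  Ω : Set ℂ
  meas : MeasurableSet Ω
  periodic : ∀ (i : Fin 2) (x : ℂ), x + b i ∈ Ω ↔ x ∈ Ω

/-- The period cell `Y`: the points `s b 0 + t b 1` with `0 ≤ s < 1`, `0 ≤ t < 1`. -/
def Microstructure.cell (M : Microstructure) : Set ℂ := ZSpan.fundamentalDomain M.b

/-- Smooth periodic displacement fields `u = u₁ + i u₂`. -/
def Microstructure.Disp (M : Microstructure) : Set (ℂ → ℂ) :=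
  {u | ContDiff ℝ ∞ u ∧ ∀ (i : Fin 2) (x : ℂ), u (x + M.b i) = u x}

/-- The symmetrised gradient `e(u)` of `u = u₁ + i u₂` at `x`. Here `fderiv ℝ u x 1` is
`∂₁u₁ + i ∂₁u₂` and `fderiv ℝ u x I` is `∂₂u₁ + i ∂₂u₂`. -/
noncomputable def strain (u : ℂ → ℂ) (x : ℂ) : Matrix (Fin 2) (Fin 2) ℝ :=
  !![(fderiv ℝ u x 1).re, ((fderiv ℝ u x 1).im + (fderiv ℝ u x I).re) / 2;
    ((fderiv ℝ u x 1).im + (fderiv ℝ u x I).re) / 2, (fderiv ℝ u x I).im]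

/-- The isotropic elasticity tensor with bulk modulus `κ` and shear modulus `μ`:
`C ε = κ (tr ε) I + 2 μ (ε - (1/2) (tr ε) I)`. -/
noncomputable def elast (κ μ : ℝ) (ε : Matrix (Fin 2) (Fin 2) ℝ) : Matrix (Fin 2) (Fin 2) ℝ :=
  (κ * ε.trace) • (1 : Matrix (Fin 2) (Fin 2) ℝ) +
    (2 * μ) • (ε - (ε.trace / 2) • (1 : Matrix (Fin 2) (Fin 2) ℝ))

/-- The energy density `ε : C ε`. -/
noncomputable def energy (κ μ : ℝ) (ε : Matrix (Fin 2) (Fin 2) ℝ) : ℝ :=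
  ∑ i, ∑ j, ε i j * elast κ μ ε i j

/-- The effective energy `ξ : C_* ξ`, for an elastic phase with moduli `κ`, `μ`. -/
noncomputable def Microstructure.effEnergy (M : Microstructure) (κ μ : ℝ)
    (ξ : Matrix (Fin 2) (Fin 2) ℝ) : ℝ :=
  ⨅ u : M.Disp, (volume.real M.cell)⁻¹ *
    ∫ x in M.cell ∩ M.Ω, energy κ μ (ξ + strain (u : ℂ → ℂ) x)

/-- `M` is isotropic with effective moduli `κs`, `μs`, for an elastic phase with moduli
`κ`, `μ`. -/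
def Microstructure.IsIsotropic (M : Microstructure) (κ μ κs μs : ℝ) : Prop :=
  0 ≤ κs ∧ 0 ≤ μs ∧ ∀ ξ : Matrix (Fin 2) (Fin 2) ℝ, ξ.IsSymm →
    M.effEnergy κ μ ξ = energy κs μs ξ

open Pool.Agent.H24

lemma energy_eq (κ μ p q r : ℝ) : energy κ μ !![p, r; r, q] =
    4 * κ * ((p + q) / 2) ^ 2 + 4 * μ * (((p - q) / 2) ^ 2 + r ^ 2) := by
  simp only [energy, elast, Fin.sum_univ_two, Matrix.trace_fin_two, Matrix.add_apply,
    Matrix.smul_apply, Matrix.sub_apply, Matrix.one_apply]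
  simp
  ring

lemma symm_form {ξ : Matrix (Fin 2) (Fin 2) ℝ} (h : ξ.IsSymm) :
    ξ = !![ξ 0 0, ξ 0 1; ξ 0 1, ξ 1 1] := by
  ext i j
  fin_cases i <;> fin_cases j
  · rfl
  · rfl
  · exact h.apply 0 1
  · rfl

lemma sq_norm (z : ℂ) : ‖z‖ ^ 2 = z.re ^ 2 + z.im ^ 2 := by
  rw [← Complex.normSq_eq_norm_sq, Complex.normSq_apply]; ring

lemma energy_qf (κ μ p q r : ℝ) : energy κ μ !![p, r; r, q] =
    qf κ μ ((p + q) / 2) (⟨(p - q) / 2, r⟩ : ℂ) := by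
  rw [energy_eq, qf, sq_norm]

lemma energy_strain {ξ : Matrix (Fin 2) (Fin 2) ℝ} (h : ξ.IsSymm) (κ μ : ℝ) (u : ℂ → ℂ) (x : ℂ) :
    energy κ μ (ξ + strain u x) =
      qf κ μ ((ξ 0 0 + ξ 1 1) / 2 + trD (fderiv ℝ u x))
        ((⟨(ξ 0 0 - ξ 1 1) / 2, ξ 0 1⟩ : ℂ) + devD (fderiv ℝ u x)) := by
  have e : ξ + strain u x = !![ξ 0 0 + (fderiv ℝ u x 1).re,
      ξ 0 1 + ((fderiv ℝ u x 1).im + (fderiv ℝ u x I).re) / 2;
      ξ 0 1 + ((fderiv ℝ u x 1).im + (fderiv ℝ u x I).re) / 2,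
      ξ 1 1 + (fderiv ℝ u x I).im] := by
    conv_lhs => rw [symm_form h]
    ext i j
    fin_cases i <;> fin_cases j <;> simp [strain]
  rw [e, energy_qf]
  have e1 : (ξ 0 0 + (fderiv ℝ u x 1).re + (ξ 1 1 + (fderiv ℝ u x I).im)) / 2 =
      (ξ 0 0 + ξ 1 1) / 2 + trD (fderiv ℝ u x) := by rw [trD]; ring
  have e2 : (⟨(ξ 0 0 + (fderiv ℝ u x 1).re - (ξ 1 1 + (fderiv ℝ u x I).im)) / 2,
      ξ 0 1 + ((fderiv ℝ u x 1).im + (fderiv ℝ u x I).re) / 2⟩ : ℂ) =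
      (⟨(ξ 0 0 - ξ 1 1) / 2, ξ 0 1⟩ : ℂ) + devD (fderiv ℝ u x) := by
    apply Complex.ext
    · rw [Complex.add_re, devD_re]; ring
    · rw [Complex.add_im, devD_im]
  rw [e1, e2]

lemma eff_eq (M : Microstructure) (κ μ : ℝ) {ξ : Matrix (Fin 2) (Fin 2) ℝ} (h : ξ.IsSymm) :
    M.effEnergy κ μ ξ = Wef κ μ M.b M.Ω ((ξ 0 0 + ξ 1 1) / 2) ⟨(ξ 0 0 - ξ 1 1) / 2, ξ 0 1⟩ := by
  unfold Microstructure.effEnergy Wef Aen
  have e : ∀ u : ℂ → ℂ, (∫ x in M.cell ∩ M.Ω, energy κ μ (ξ + strain u x)) =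
      ∫ x in ZSpan.fundamentalDomain M.b ∩ M.Ω,
        qf κ μ ((ξ 0 0 + ξ 1 1) / 2 + trD (fderiv ℝ u x))
        ((⟨(ξ 0 0 - ξ 1 1) / 2, ξ 0 1⟩ : ℂ) + devD (fderiv ℝ u x)) := by
    intro u
    show (∫ x in ZSpan.fundamentalDomain M.b ∩ M.Ω, energy κ μ (ξ + strain u x)) = _
    exact integral_congr_ae (Filter.Eventually.of_forall fun x => energy_strain h κ μ u x)
  refine Function.Surjective.iInf_congr (fun u : M.Disp => (⟨u.1, u.2⟩ : PF M.b))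
    (fun u => ⟨⟨u.1, u.2⟩, rfl⟩) fun u => ?_
  rw [e]
  rfl

lemma energy_symm {ξ : Matrix (Fin 2) (Fin 2) ℝ} (h : ξ.IsSymm) (κ μ : ℝ) :
    energy κ μ ξ = qf κ μ ((ξ 0 0 + ξ 1 1) / 2) ⟨(ξ 0 0 - ξ 1 1) / 2, ξ 0 1⟩ := by
  conv_lhs => rw [symm_form h]
  exact energy_qf _ _ _ _ _

lemma upper {M : Microstructure} {κ μ κs μs : ℝ} (hκ : 0 < κ) (hμ : 0 < μ)
    (h : M.IsIsotropic κ μ κs μs) : μs ≤ μ := by
  have hs : (!![1, 0; 0, -1] : Matrix (Fin 2) (Fin 2) ℝ).IsSymm := by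
    ext i j; fin_cases i <;> fin_cases j <;> simp
  have h1 := h.2.2 _ hs
  rw [eff_eq M κ μ hs, energy_eq] at h1
  have h2 := Wef_shear_le (b := M.b) hκ hμ M.Ω 1
  have e : Wef κ μ M.b M.Ω (((!![1, 0; 0, -1] : Matrix (Fin 2) (Fin 2) ℝ) 0 0 +
      (!![1, 0; 0, -1] : Matrix (Fin 2) (Fin 2) ℝ) 1 1) / 2)
      ⟨((!![1, 0; 0, -1] : Matrix (Fin 2) (Fin 2) ℝ) 0 0 -
      (!![1, 0; 0, -1] : Matrix (Fin 2) (Fin 2) ℝ) 1 1) / 2,
      (!![1, 0; 0, -1] : Matrix (Fin 2) (Fin 2) ℝ) 0 1⟩ = Wef κ μ M.b M.Ω 0 1 := by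
    congr 1
    · simp
    · apply Complex.ext <;> simp
  rw [e] at h1
  rw [h1, norm_one] at h2
  norm_num at h2
  linarith

/-- There is a sequence of planar microstructures, not depending on the moduli `κ`, `μ` of the
elastic phase, which are isotropic with effective moduli `κs n → 0` and `μs n → μ`. So the
supremum of `μ_* - c κ_*` over isotropic microstructures is `μ`, for every `c > 0`. -/
theorem result :
    (∃ M : ℕ → Microstructure, ∀ κ μ : ℝ, 0 < κ → 0 < μ → ∃ κs μs : ℕ → ℝ,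
      (∀ n, (M n).IsIsotropic κ μ (κs n) (μs n)) ∧
      Tendsto κs atTop (𝓝 0) ∧ Tendsto μs atTop (𝓝 μ)) ∧
    ∀ κ μ c : ℝ, 0 < κ → 0 < μ → 0 < c →
      IsLUB {s : ℝ | ∃ (M : Microstructure) (κs μs : ℝ),
        M.IsIsotropic κ μ κs μs ∧ s = μs - c * κs} μ := by
  have main : ∃ M : ℕ → Microstructure, ∀ κ μ : ℝ, 0 < κ → 0 < μ → ∃ κs μs : ℕ → ℝ,
      (∀ n, (M n).IsIsotropic κ μ (κs n) (μs n)) ∧
      Tendsto κs atTop (𝓝 0) ∧ Tendsto μs atTop (𝓝 μ) := by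
    have hη : ∀ n : ℕ, 0 < 1 / ((n : ℝ) + 1) := fun n => by positivity
    have hstep : ∀ n : ℕ, ∃ M : Microstructure, ∀ κ μ : ℝ, 0 < κ → 0 < μ → ∃ κs μs : ℝ,
        M.IsIsotropic κ μ κs μs ∧ κs ≤ 2 * max κ μ * (1 / ((n : ℝ) + 1)) ∧
        μ * (1 - μ * (1 / κ + 2 / μ) * (1 / ((n : ℝ) + 1))) ≤ μs ∧ μs ≤ μ := by
      intro n
      obtain ⟨V0, v, ψ, D⟩ := exists_device (hη n)
      obtain ⟨J, c, ρ, P⟩ := exists_pk (mul_pos (hη n) (cell_pos hexB))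
      refine ⟨⟨hexB, (Vd hexB J c ρ V0)ᶜ, (isOpen_Vd D.openV).measurableSet.compl,
        fun i x => not_congr (Vd_per i x)⟩, fun κ μ hκ hμ => ?_⟩
      obtain ⟨κs, μs, h1, h2, h3, h4, h5, h6⟩ := micro_est hκ hμ P D
      refine ⟨κs, μs, ⟨h1, h2, fun ξ hξ => ?_⟩, h4, h5, h6⟩
      rw [eff_eq _ _ _ hξ, energy_symm hξ]
      exact h3 _ _
    choose M hM using hstep
    refine ⟨M, fun κ μ hκ hμ => ?_⟩
    choose κs μs h using fun n => hM n κ μ hκ hμ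
    have hlim : Tendsto (fun n : ℕ => 1 / ((n : ℝ) + 1)) atTop (𝓝 0) :=
      tendsto_one_div_add_atTop_nhds_zero_nat
    refine ⟨κs, μs, fun n => (h n).1, ?_, ?_⟩
    · have l1 := hlim.const_mul (2 * max κ μ)
      rw [mul_zero] at l1
      exact squeeze_zero (fun n => (h n).1.1) (fun n => (h n).2.1) l1
    · have l2 : Tendsto (fun n : ℕ => μ * (1 - μ * (1 / κ + 2 / μ) * (1 / ((n : ℝ) + 1)))) atTop
          (𝓝 μ) := by
        have := ((hlim.const_mul (μ * (1 / κ + 2 / μ))).const_sub 1).const_mul μ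
        rw [mul_zero, sub_zero, mul_one] at this
        exact this
      exact tendsto_of_tendsto_of_tendsto_of_le_of_le l2 tendsto_const_nhds
        (fun n => (h n).2.2.1) (fun n => (h n).2.2.2)
  refine ⟨main, fun κ μ c hκ hμ hc => ⟨?_, ?_⟩⟩
  · rintro s ⟨M, κs, μs, h, rfl⟩
    have h1 := upper hκ hμ h
    have h2 := mul_nonneg hc.le h.1
    linarith
  · intro B hB
    obtain ⟨M, hM⟩ := main
    obtain ⟨κs, μs, h1, h2, h3⟩ := hM κ μ hκ hμ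
    have hlim : Tendsto (fun n => μs n - c * κs n) atTop (𝓝 μ) := by
      have := h3.sub (h2.const_mul c)
      rwa [mul_zero, sub_zero] at this
    exact le_of_tendsto' hlim fun n => hB ⟨M n, κs n, μs n, h1 n, rfl⟩

end Pool.Agent.Results.MP_2f78f5_an.ShearTwoD
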